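import Pool.Agent.W536.LM.Stm

set_option autoImplicit false

open Polynomial

namespace W536.LM

theorem map_C_eval (P : Par ℝ) (x : ℝ) : (P.map C).map (evalRingHom x) = P := by
  cases P; simp [Par.map]

theorem map_C_aeval (P : Par ℝ) (s : PowerSeries ℝ) :
    (P.map C).map (aeval s : ℝ[X] →ₐ[ℝ] PowerSeries ℝ).toRingHom = P.ps := by
  cases P; simp [Par.map, Par.ps]

theorem nd_cx (P : Par ℝ) (h : GenP P) : ND P.cx := by
  obtain ⟨hL, hm, hmL, -⟩ := h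
  refine ⟨?_, ?_, ?_⟩
  · have : P.L ≠ 0 := hL.ne'
    simpa [Par.cx, Par.map] using this
  · intro k
    have : P.m k ≠ 0 := (hm k).ne'
    simpa [Par.cx, Par.map] using this
  · intro k
    have := hmL k
    simpa [Par.cx, Par.map] using this

theorem t_CORE (hN : S_NAT) (hZ : S_Z) (hC : S_CHAIN) (hA : S_ORDA) (hB : S_ORDB) (hQ : S_EQ)
    (hP : S_POS) (hS : S_SIGN) : S_CORE := by
  intro P hG
  have hG' := hG
  obtain ⟨hL, hm, hmL, hem, hem', F, hF⟩ := hG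
  have hND : ND P.cx := nd_cx P hG'
  set Φ : ℝ[X] := G 5 (P.map C) X X with hΦ
  have hev : ∀ x : ℝ, Φ.eval x = G 5 P x x := by
    intro x
    have := hN 5 ℝ[X] ℝ (evalRingHom x) (P.map C) X X
    rw [map_C_eval] at this
    simpa using this
  have hps : ∀ s : PowerSeries ℝ, aeval s Φ = G 5 P.ps s s := by
    intro s
    have := hN 5 ℝ[X] (PowerSeries ℝ) (aeval s : ℝ[X] →ₐ[ℝ] PowerSeries ℝ).toRingHom (P.map C) X X
    rw [map_C_aeval] at this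
    simpa using this
  have hcx : ∀ x y : ℝ, ((G 5 P x y : ℝ) : ℂ) = G 5 P.cx (x : ℂ) (y : ℂ) := by
    intro x y
    exact hN 5 ℝ ℂ Complex.ofRealHom P x y
  clear_value Φ
  -- the fixed points
  set κ : ℝ := Real.sqrt (P.m 0 / P.L) with hκ
  have hq : 0 < P.m 0 / P.L := div_pos (hm 0) hL
  have hκ0 : 0 < κ := Real.sqrt_pos.mpr hq
  have hκ2 : κ ^ 2 = P.m 0 / P.L := Real.sq_sqrt hq.le
  have hLκ : P.L * κ ^ 2 = P.m 0 := by rw [hκ2]; field_simp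
  have hκ1 : κ ≠ 1 := by
    intro h
    rw [h] at hLκ
    apply hmL 0
    linarith
  -- no chains through special points
  have key : ∀ x : ℝ, x ≠ 0 → x ≠ 1 → P.L * x ≠ P.m 0 → G 5 P x x = 0 →
      (x : ℂ) ∉ F 5 ∧ ∃ w : ℕ → ℂ, w 0 = (x : ℂ) ∧ (∀ k, k ≤ 5 → w k ≠ 0) ∧
        (∀ k, k < 5 → E0 P.cx.L (P.cx.m k) (P.cx.m (k + 1)) (P.cx.e k) (w k) (w (k + 1)) = 0) ∧
        E0 P.cx.L (P.cx.m 5) (P.cx.m 0) (P.cx.e 5) (w 5) (w 0) = 0 := by
    intro x h0 h1 h2 h3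
    have h4 : G 5 P.cx (x : ℂ) (x : ℂ) = 0 := by rw [← hcx, h3]; simp
    have h5 := hZ P.cx hND 5 (x : ℂ) (x : ℂ) h4
    refine hC (F 5) P.cx (x : ℂ) hND (hF 5 le_rfl) ?_ ?_ ?_ h5
    · exact_mod_cast h0
    · exact_mod_cast h1
    · show (Complex.ofRealHom P.L) * (x : ℂ) ≠ Complex.ofRealHom (P.m 0)
      simp only [Complex.ofRealHom_eq_coe]
      exact_mod_cast h2
  have hfix : ∀ x : ℝ, P.L * x ^ 2 = P.m 0 → (x : ℂ) ∈ F 5 := by
    intro x hx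
    obtain ⟨hacl, hLF, hmF, -, -⟩ := hF 5 le_rfl
    have hLF' : (P.L : ℂ) ∈ F 5 := hLF
    have hmF' : ((P.m 0 : ℝ) : ℂ) ∈ F 5 := hmF 0
    refine hacl (C (P.L : ℂ) * X ^ 2 - C ((P.m 0 : ℝ) : ℂ)) ?_ ?_ (x : ℂ) ?_
    · intro h
      have := congrArg (fun p : ℂ[X] => p.coeff 2) h
      simp at this
      exact hL.ne' this
    · intro k
      rw [coeff_sub, coeff_C_mul, coeff_X_pow, coeff_C]
      refine (F 5).sub_mem ((F 5).mul_mem hLF' ?_) ?_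
      · split_ifs
        · exact (F 5).one_mem
        · exact (F 5).zero_mem
      · split_ifs
        · exact hmF'
        · exact (F 5).zero_mem
    · simp only [eval_sub, eval_mul, eval_C, eval_pow, eval_X]
      rw [sub_eq_zero]
      exact_mod_cast hx
  have hpos : 0 < Φ.eval κ := by
    rw [hev]
    refine lt_of_le_of_ne (hP P hL hm (hmL 0) κ hLκ) (Ne.symm ?_)
    intro h
    refine (key κ hκ0.ne' hκ1 ?_ h).1 (hfix κ hLκ)
    intro h'
    rw [← hLκ] at h'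
    have : κ = κ ^ 2 := mul_left_cancel₀ hL.ne' h'
    apply hκ1
    have h2 : κ * (κ - 1) = 0 := by linarith
    rcases mul_eq_zero.mp h2 with h3 | h3
    · exact absurd h3 hκ0.ne'
    · linarith
  have hLκ' : P.L * (-κ) ^ 2 = P.m 0 := by rw [neg_sq]; exact hLκ
  have hneg : 0 < Φ.eval (-κ) := by
    rw [hev]
    refine lt_of_le_of_ne (hP P hL hm (hmL 0) (-κ) hLκ') (Ne.symm ?_)
    intro h
    refine (key (-κ) (by linarith) (by linarith) ?_ h).1 (hfix (-κ) hLκ')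
    intro h'
    have h1 : P.L * (-κ) < 0 := mul_neg_of_pos_of_neg hL (neg_lt_zero.mpr hκ0)
    have h2 := hm 0
    rw [h'] at h1
    exact absurd h2 (not_lt.mpr h1.le)
  obtain ⟨c, hc, hceq⟩ := hQ P hL hm 5 le_rfl
  have heq : ∀ x : ℝ, x ≠ 0 → Φ.eval (κ ^ 2 / x) * x ^ 128 = c * Φ.eval x := by
    intro x hx
    have h := hceq (x : ℂ) (x : ℂ) (by exact_mod_cast hx) (by exact_mod_cast hx)
    rw [hev, hev, hκ2]
    have h1 : (P.m 0 / P.L / x : ℝ) = P.m 0 / (P.L * x) := by field_simp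
    rw [h1]
    have h2 : (((P.m 0 / (P.L * x) : ℝ)) : ℂ) = (P.m 0 : ℂ) / (P.L * x) := by push_cast; rfl
    have h3 := hcx (P.m 0 / (P.L * x)) (P.m 0 / (P.L * x))
    rw [h2] at h3
    have h4 := hcx x x
    have h5 : G 5 P.cx ((P.m 0 : ℂ) / (P.L * x)) ((P.m 0 : ℂ) / (P.L * x)) * (x : ℂ) ^ 64 *
        (x : ℂ) ^ 64 = (c : ℂ) * G 5 P.cx x x := by
      simpa using h
    rw [← h3, ← h4] at h5
    have h6 : (((G 5 P (P.m 0 / (P.L * x)) (P.m 0 / (P.L * x)) * x ^ 64 * x ^ 64 : ℝ)) : ℂ) =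
        ((c * G 5 P x x : ℝ) : ℂ) := by
      push_cast
      exact h5
    have h7 := Complex.ofReal_injective h6
    rw [← h7]
    ring
  obtain ⟨x, hx0, hx1, hx2, hx3⟩ := hS Φ κ c hκ0 hκ1 hc
    (by rw [hps]; exact hB P hG') (by rw [hps]; exact hA P hG') hpos hneg heq
  have hx4 : P.L * x ≠ P.m 0 := by
    intro h
    apply hx2
    rw [hκ2, eq_div_iff hL.ne']
    linarith
  obtain ⟨-, w, hw0, hw1, hw2, hw3⟩ := key x hx0 hx1 hx4 (by rw [← hev]; exact hx3)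
  refine ⟨x, w, hw0, ?_, hw1, hw2, hw3⟩
  intro h
  have h2 : x ^ 2 = κ ^ 2 := by
    rw [hκ2, eq_div_iff hL.ne']
    linarith
  rcases sq_eq_sq_iff_eq_or_eq_neg.mp h2 with h3 | h3
  · rw [h3] at hx3
    exact hpos.ne' hx3
  · rw [h3] at hx3
    exact hneg.ne' hx3

end W536.LM
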