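import Pool.Agent.W536.LM.Stm

set_option autoImplicit false

open Polynomial

namespace W536.LM

theorem ed_ne : ∀ a : Fin 13, (ed a).1 ≠ (ed a).2 := by decide

theorem gr_adj (a : Fin 13) : Gr.Adj (ed a).1 (ed a).2 := by
  rw [Gr, SimpleGraph.fromRel_adj]
  exact ⟨ed_ne a, Or.inl ⟨a, rfl⟩⟩

theorem dd_symm {K : Type} [CommRing K] (p : Fin 8 → Fin 2 → K) (i j : Fin 8) :
    dd p i j = dd p j i := by
  unfold dd
  refine Finset.sum_congr rfl fun k _ => ?_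
  ring

/-- edges as adjacency or as a list -/
theorem edge_iff {K : Type} [CommRing K] (q : Fin 8 → Fin 2 → K) (D : Fin 8 → Fin 8 → K)
    (hD : ∀ i j, D i j = D j i) :
    (∀ i j, Gr.Adj i j → dd q i j = D i j) ↔ ∀ a, dd q (ed a).1 (ed a).2 = D (ed a).1 (ed a).2 := by
  constructor
  · intro h a
    exact h _ _ (gr_adj a)
  · intro h i j hij
    rw [Gr, SimpleGraph.fromRel_adj] at hij
    rcases hij.2 with ⟨a, ha⟩ | ⟨a, ha⟩
    · have := h a
      rw [ha] at this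
      exact this
    · have := h a
      rw [ha] at this
      rw [dd_symm, hD]
      exact this

theorem dd_cast (p : Fin 8 → Fin 2 → ℝ) (i j : Fin 8) :
    ∑ k, ((p i k : ℂ) - (p j k : ℂ)) ^ 2 = ((dd p i j : ℝ) : ℂ) := by
  unfold dd
  push_cast
  rfl

theorem final (hRIG : S_RIG) (hIND : S_IND) (hGEN : S_GEN) (hFIN : S_FINI) (hGEO : S_GEO)
    (hCORE : S_CORE) :
    ¬ (∀ (n : ℕ) (G : SimpleGraph (Fin n)),
    (∀ p : Fin n → Fin 2 → ℝ,
      AlgebraicIndependent ℚ (fun x : Fin n × Fin 2 => p x.1 x.2) →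
      ∀ u : Fin n → Fin 2 → ℝ,
        (∀ i j, G.Adj i j → ∑ k, (p i k - p j k) * (u i k - u j k) = 0) →
        ∀ i j, ∑ k, (p i k - p j k) * (u i k - u j k) = 0) →
    ∃ p : Fin n → Fin 2 → ℝ,
      AlgebraicIndependent ℚ (fun x : Fin n × Fin 2 => p x.1 x.2) ∧
      {D : Fin n → Fin n → ℝ | ∃ q : Fin n → Fin 2 → ℝ,
          (∀ i j, G.Adj i j → ∑ k, (q i k - q j k) ^ 2 = ∑ k, (p i k - p j k) ^ 2) ∧
          D = fun i j => ∑ k, (q i k - q j k) ^ 2}.ncard =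
      {D : Fin n → Fin n → ℂ | ∃ q : Fin n → Fin 2 → ℂ,
          (∀ i j, G.Adj i j →
            ∑ k, (q i k - q j k) ^ 2 = ∑ k, ((p i k : ℂ) - (p j k : ℂ)) ^ 2) ∧
          D = fun i j => ∑ k, (q i k - q j k) ^ 2}.ncard) := by
  intro H
  obtain ⟨p, hp, hcard⟩ := H 8 Gr (by
    intro p hp u hu
    exact hRIG p hp u (fun a => hu _ _ (gr_adj a)))
  have hI := hIND p hp
  have hP := hGEN p hI
  have hfin := hFIN p hI
  obtain ⟨x, w, hw0, hx, hwk, hwE, hwl⟩ := hCORE _ hP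
  obtain ⟨q, hq1, hq2⟩ := hGEO p hP.1 hP.2.1 x w hw0 hx hwk hwE hwl
  set RS : Set (Fin 8 → Fin 8 → ℝ) := {D | ∃ q : Fin 8 → Fin 2 → ℝ,
    (∀ i j, Gr.Adj i j → ∑ k, (q i k - q j k) ^ 2 = ∑ k, (p i k - p j k) ^ 2) ∧
      D = fun i j => ∑ k, (q i k - q j k) ^ 2} with hRS
  set CS : Set (Fin 8 → Fin 8 → ℂ) := {D | ∃ q : Fin 8 → Fin 2 → ℂ,
    (∀ i j, Gr.Adj i j → ∑ k, (q i k - q j k) ^ 2 = ∑ k, ((p i k : ℂ) - (p j k : ℂ)) ^ 2) ∧
      D = fun i j => ∑ k, (q i k - q j k) ^ 2} with hCS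
  have hCSfin : CS.Finite := by
    refine hfin.subset ?_
    rintro D ⟨q, h1, h2⟩
    refine ⟨q, ?_, h2⟩
    intro a
    rw [← dd_cast]
    exact h1 _ _ (gr_adj a)
  let f : (Fin 8 → Fin 8 → ℝ) → (Fin 8 → Fin 8 → ℂ) := fun D i j => (D i j : ℂ)
  have hf : Function.Injective f := by
    intro D D' h
    funext i j
    have := congrFun (congrFun h i) j
    exact Complex.ofReal_injective this
  have hsub : f '' RS ⊆ CS := by
    rintro _ ⟨D, ⟨q, h1, h2⟩, rfl⟩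
    refine ⟨fun i k => (q i k : ℂ), ?_, ?_⟩
    · intro i j hij
      have := congrArg (fun r : ℝ => (r : ℂ)) (h1 i j hij)
      simpa using this
    · funext i j
      rw [h2]
      simp [f]
  have hEq : f '' RS = CS := by
    refine Set.eq_of_subset_of_ncard_le hsub ?_ hCSfin
    rw [Set.ncard_image_of_injective _ hf]
    exact hcard.ge
  have hmem : (fun i j => dd q i j) ∈ CS := by
    refine ⟨q, ?_, rfl⟩
    have h := (edge_iff q (fun i j => ((dd p i j : ℝ) : ℂ)) (by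
      intro i j
      show ((dd p i j : ℝ) : ℂ) = ((dd p j i : ℝ) : ℂ)
      rw [dd_symm])).2 hq1
    intro i j hij
    rw [dd_cast]
    exact h i j hij
  rw [← hEq] at hmem
  obtain ⟨D, ⟨q', h1, h2⟩, h3⟩ := hmem
  refine hq2 q' (fun a => h1 _ _ (gr_adj a)) ?_
  have h4 := congrFun (congrFun h3 6) 0
  rw [← h4, h2]
  rfl

end W536.LM
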