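import Mathlib

/-!
Project LM (helper536): S06894 (MP_01c1f4_co).  The graph on 8 vertices = 6-cycle 0..5, even
vertices joined to 7, odd vertices joined to 6, and the edge 67 (K_{4,4} minus three disjoint edges).
-/

set_option autoImplicit false

open Polynomial

namespace W536.LM

/-- parameters: `L` = squared length of 67, `m k` = squared length of the edge from `k` to its
pivot, `e k` = squared length of the edge `k, k+1`. -/
structure Par (S : Type) where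
  L : S
  m : ℕ → S
  e : ℕ → S

/-- transport of parameters along a ring homomorphism -/
def Par.map {S T : Type} [CommRing S] [CommRing T] (f : S →+* T) (P : Par S) : Par T :=
  ⟨f P.L, fun k => f (P.m k), fun k => f (P.e k)⟩

/-- the basic relation (four-bar) -/
def E0 {S : Type} [CommRing S] (L m m' e w w' : S) : S :=
  (w + w' - 1) * (m' * w + m * w' - L * w * w') - e * w * w'

/-- the same as a polynomial in `w'` -/
noncomputable def Ep {S : Type} [CommRing S] (L m m' e w : S) : S[X] :=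
  C (m - L * w) * X ^ 2 + C (m' * w + (w - 1) * (m - L * w) - e * w) * X + C ((w - 1) * m' * w)

/-- iterated resultants along the path `w_{5-n}, ..., w_5, w_0` -/
noncomputable def G : (n : ℕ) → {S : Type} → [CommRing S] → Par S → S → S → S
  | 0, _, _, P, w, w0 => E0 P.L (P.m 5) (P.m 0) (P.e 5) w w0
  | (n+1), _, _, P, w, w0 =>
      resultant (Ep P.L (P.m (4 - n)) (P.m (5 - n)) (P.e (4 - n)) w)
        (G n (P.map C) X (C w0)) 2 (2 ^ (n + 1))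

/-! ### algebra of the iterated resultants -/

/-- NAT: naturality -/
def S_NAT : Prop := ∀ (n : ℕ) (S T : Type) [CommRing S] [CommRing T] (f : S →+* T) (P : Par S)
  (w w0 : S), f (G n P w w0) = G n (P.map f) (f w) (f w0)

/-- DEG: degree bound -/
def S_DEG : Prop := ∀ (n : ℕ) (S : Type) [CommRing S] (P : Par S) (w0 : S),
  (G n (P.map C) X (C w0)).natDegree ≤ 2 ^ (n + 1)

/-- FAC: product formula -/
def S_FAC : Prop := ∀ (n : ℕ) (S : Type) [CommRing S] [Nontrivial S] (P : Par S) (a r1 r2 w w0 : S),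
  Ep P.L (P.m (4 - n)) (P.m (5 - n)) (P.e (4 - n)) w = C a * (X - C r1) * (X - C r2) →
  G (n + 1) P w w0 = a ^ (2 ^ (n + 1)) * (G n P r1 w0 * G n P r2 w0)

/-- value at infinity -/
noncomputable def Ginf : ℕ → Par ℂ → ℂ → ℂ
  | 0, P, w0 => P.m 0 - P.L * w0
  | (n+1), P, w0 =>
      resultant (C (P.m (5 - n)) - C P.L * X) (G n (P.map C) X (C w0)) 2 (2 ^ (n + 1))

/-- TOP: the top coefficient is the value at infinity -/
def S_TOP : Prop := ∀ (n : ℕ) (P : Par ℂ) (w0 : ℂ),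
  (G n (P.map C) X (C w0)).coeff (2 ^ (n + 1)) = Ginf n P w0

/-- RES0: a vanishing resultant gives a common projective root -/
def S_RES0 : Prop := ∀ (f g : ℂ[X]) (N : ℕ), f ≠ 0 → f.natDegree ≤ 2 → g.natDegree ≤ N →
  resultant f g 2 N = 0 → (∃ r, f.eval r = 0 ∧ g.eval r = 0) ∨ (f.coeff 2 = 0 ∧ g.coeff N = 0)

/-- projective version of the relation `E0 = 0` (`none` is infinity) -/
def Rel (L m m' e : ℂ) : Option ℂ → Option ℂ → Prop
  | some w, some w' => E0 L m m' e w w' = 0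
  | some w, none => m - L * w = 0
  | none, some w' => m' - L * w' = 0
  | none, none => True

/-- projective chains from `v` at the vertex `5-n` to `w0` -/
def Path (P : Par ℂ) (w0 : ℂ) : ℕ → Option ℂ → Prop
  | 0, v => Rel P.L (P.m 5) (P.m 0) (P.e 5) v (some w0)
  | (n+1), v => ∃ v', Rel P.L (P.m (4 - n)) (P.m (5 - n)) (P.e (4 - n)) v v' ∧ Path P w0 n v'

/-- nondegenerate parameters -/
def ND (P : Par ℂ) : Prop := P.L ≠ 0 ∧ (∀ k, P.m k ≠ 0) ∧ (∀ k, P.m k ≠ P.L)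

/-- Z: a zero of `G` comes from a projective chain -/
def S_Z : Prop := ∀ P : Par ℂ, ND P → ∀ (n : ℕ) (w w0 : ℂ), G n P w w0 = 0 → Path P w0 n (some w)

/-- a subfield of ℂ which is algebraically closed in ℂ -/
def ACl (F : Subfield ℂ) : Prop := ∀ p : ℂ[X], p ≠ 0 → (∀ k, p.coeff k ∈ F) →
  ∀ z : ℂ, p.eval z = 0 → z ∈ F

/-- membership of a projective point in `F ∪ {∞}` -/
def InF (F : Subfield ℂ) : Option ℂ → Prop
  | some z => z ∈ F
  | none => True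

/-- PROP: propagation of membership along an edge -/
def S_PROP : Prop := ∀ (F : Subfield ℂ) (L m m' e : ℂ), ACl F → L ∈ F → m ∈ F → m' ∈ F → e ∈ F →
  L ≠ 0 → m ≠ 0 → m' ≠ 0 → m ≠ L → m' ≠ L →
  ∀ v v' : Option ℂ, Rel L m m' e v v' → (InF F v ↔ InF F v')

/-- all parameters except `e j` lie in `F`, and `e j` does not -/
def Exc (F : Subfield ℂ) (P : Par ℂ) (j : ℕ) : Prop :=
  ACl F ∧ P.L ∈ F ∧ (∀ k, P.m k ∈ F) ∧ (∀ k, k ≤ 5 → k ≠ j → P.e k ∈ F) ∧ P.e j ∉ F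

/-- CHAIN: a closed projective chain through a non-special point is finite and nondegenerate -/
def S_CHAIN : Prop := ∀ (F : Subfield ℂ) (P : Par ℂ) (w0 : ℂ), ND P → Exc F P 5 →
  w0 ≠ 0 → w0 ≠ 1 → P.L * w0 ≠ P.m 0 → Path P w0 5 (some w0) →
  w0 ∉ F ∧ ∃ w : ℕ → ℂ, w 0 = w0 ∧ (∀ k, k ≤ 5 → w k ≠ 0) ∧
    (∀ k, k < 5 → E0 P.L (P.m k) (P.m (k + 1)) (P.e k) (w k) (w (k + 1)) = 0) ∧
    E0 P.L (P.m 5) (P.m 0) (P.e 5) (w 5) (w 0) = 0

/-- ETA: the branch through the non-special partner of the state `1` does not contribute -/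
def S_ETA : Prop := ∀ (F : ℕ → Subfield ℂ) (P : Par ℂ), ND P → (∀ j, j ≤ 5 → Exc (F j) P j) →
  ∀ (n : ℕ) (w0 : ℂ), n ≤ 4 → (w0 = 0 ∨ w0 = 1) →
  G n P ((P.e (4 - n) - P.m (5 - n)) / (P.m (4 - n) - P.L)) w0 ≠ 0

/-! ### local analysis in ℝ⟦X⟧ -/

/-- `f = X^k * unit` -/
def Ord (k : ℕ) (f : PowerSeries ℝ) : Prop :=
  ∃ u : PowerSeries ℝ, IsUnit u ∧ f = (PowerSeries.X : PowerSeries ℝ) ^ k * u

/-- HENS: Hensel's lemma for quadratic polynomials -/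
def S_HENS : Prop := ∀ (a b c : PowerSeries ℝ) (ρ1 ρ2 : ℝ), PowerSeries.constantCoeff a ≠ 0 →
  ρ1 ≠ ρ2 → PowerSeries.constantCoeff b = -(PowerSeries.constantCoeff a * (ρ1 + ρ2)) →
  PowerSeries.constantCoeff c = PowerSeries.constantCoeff a * (ρ1 * ρ2) →
  ∃ r1 r2 : PowerSeries ℝ, PowerSeries.constantCoeff r1 = ρ1 ∧ PowerSeries.constantCoeff r2 = ρ2 ∧
    b = -(a * (r1 + r2)) ∧ c = a * (r1 * r2)

/-- STEP0: the two continuations of a germ at the state `0` -/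
def S_STEP0 : Prop := ∀ (L m m' e : ℝ) (w : PowerSeries ℝ), m ≠ 0 →
  PowerSeries.coeff 0 w = 0 →
  ∃ a r0 r1 : PowerSeries ℝ, PowerSeries.constantCoeff a ≠ 0 ∧
    Ep (PowerSeries.C L) (PowerSeries.C m) (PowerSeries.C m') (PowerSeries.C e) w =
      C a * (X - C r0) * (X - C r1) ∧
    PowerSeries.coeff 0 r0 = 0 ∧
    PowerSeries.coeff 1 r0 = -(m' / m) * PowerSeries.coeff 1 w ∧
    PowerSeries.coeff 2 r0 = -((m' * PowerSeries.coeff 2 w +
      (e - L) * PowerSeries.coeff 1 w * (-(m' / m) * PowerSeries.coeff 1 w)) / m) ∧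
    PowerSeries.coeff 0 r1 = 1 ∧
    PowerSeries.coeff 1 r1 = (e / m - 1) * PowerSeries.coeff 1 w

/-- STEP1: the two continuations of a germ at the state `1` -/
def S_STEP1 : Prop := ∀ (L m m' e : ℝ) (w : PowerSeries ℝ), m ≠ L → e ≠ m' →
  PowerSeries.coeff 0 w = 1 →
  ∃ a r0 r1 : PowerSeries ℝ, PowerSeries.constantCoeff a ≠ 0 ∧
    Ep (PowerSeries.C L) (PowerSeries.C m) (PowerSeries.C m') (PowerSeries.C e) w =
      C a * (X - C r0) * (X - C r1) ∧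
    PowerSeries.coeff 0 r0 = 0 ∧
    PowerSeries.coeff 1 r0 = m' / (e - m') * PowerSeries.coeff 1 w ∧
    PowerSeries.coeff 0 r1 = (e - m') / (m - L)

/-- complexification of real parameters -/
noncomputable def Par.cx (P : Par ℝ) : Par ℂ := P.map Complex.ofRealHom

/-- power series version of real parameters -/
noncomputable def Par.ps (P : Par ℝ) : Par (PowerSeries ℝ) := P.map (PowerSeries.C)

/-- real parameters with all genericity used -/
def GenP (P : Par ℝ) : Prop := 0 < P.L ∧ (∀ k, 0 < P.m k) ∧ (∀ k, P.m k ≠ P.L) ∧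
  (∀ k, k ≤ 5 → P.e k ≠ P.m k) ∧ (∀ k, k ≤ 4 → P.e k ≠ P.m (k + 1)) ∧
  ∃ F : ℕ → Subfield ℂ, ∀ j, j ≤ 5 → Exc (F j) P.cx j

/-- ORDA: order at the special point `1` -/
def S_ORDA : Prop := ∀ P : Par ℝ, GenP P →
  Ord 5 (G 5 P.ps (1 + PowerSeries.X) (1 + PowerSeries.X))

/-- ORDB: order at the special point `0` -/
def S_ORDB : Prop := ∀ P : Par ℝ, GenP P → Ord 14 (G 5 P.ps PowerSeries.X PowerSeries.X)

/-- EQ: equivariance under `w_k ↦ m_k / (L w_k)` -/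
def S_EQ : Prop := ∀ P : Par ℝ, 0 < P.L → (∀ k, 0 < P.m k) → ∀ n : ℕ, n ≤ 5 →
  ∃ c : ℝ, 0 < c ∧ ∀ w w0 : ℂ, w ≠ 0 → w0 ≠ 0 →
    G n P.cx ((P.m (5 - n) : ℂ) / (P.L * w)) ((P.m 0 : ℂ) / (P.L * w0)) *
      w ^ (2 ^ (n + 1)) * w0 ^ (2 ^ (n + 1)) = (c : ℂ) * G n P.cx w w0

/-- POS: positivity at the two fixed points -/
def S_POS : Prop := ∀ P : Par ℝ, 0 < P.L → (∀ k, 0 < P.m k) → P.m 0 ≠ P.L →
  ∀ x : ℝ, P.L * x ^ 2 = P.m 0 → 0 ≤ G 5 P x x

/-- SIGN: the final contradiction about a real polynomial -/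
def S_SIGN : Prop := ∀ (Φ : ℝ[X]) (κ c : ℝ), 0 < κ → κ ≠ 1 → 0 < c →
  (∃ u : PowerSeries ℝ, IsUnit u ∧
    (Polynomial.aeval (PowerSeries.X : PowerSeries ℝ) Φ) = PowerSeries.X ^ 14 * u) →
  (∃ u : PowerSeries ℝ, IsUnit u ∧
    (Polynomial.aeval (1 + PowerSeries.X : PowerSeries ℝ) Φ) = PowerSeries.X ^ 5 * u) →
  0 < Φ.eval κ → 0 < Φ.eval (-κ) →
  (∀ x : ℝ, x ≠ 0 → Φ.eval (κ ^ 2 / x) * x ^ 128 = c * Φ.eval x) →
  ∃ x : ℝ, x ≠ 0 ∧ x ≠ 1 ∧ x ≠ κ ^ 2 ∧ Φ.eval x = 0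

/-- CORE: existence of a nondegenerate chain with real `w 0` (assembly, helper536) -/
def S_CORE : Prop := ∀ P : Par ℝ, GenP P →
  ∃ (x : ℝ) (w : ℕ → ℂ), w 0 = (x : ℂ) ∧ P.L * x ^ 2 ≠ P.m 0 ∧ (∀ k, k ≤ 5 → w k ≠ 0) ∧
    (∀ k, k < 5 → E0 P.cx.L (P.cx.m k) (P.cx.m (k + 1)) (P.cx.e k) (w k) (w (k + 1)) = 0) ∧
    E0 P.cx.L (P.cx.m 5) (P.cx.m 0) (P.cx.e 5) (w 5) (w 0) = 0

/-! ### the graph and the frameworks -/

/-- edges of the graph -/
def ed : Fin 13 → Fin 8 × Fin 8 :=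
  ![(0, 1), (1, 2), (2, 3), (3, 4), (4, 5), (5, 0), (0, 7), (2, 7), (4, 7), (1, 6), (3, 6), (5, 6),
    (6, 7)]

/-- the graph -/
def Gr : SimpleGraph (Fin 8) := SimpleGraph.fromRel (fun i j => ∃ a, ed a = (i, j))

/-- squared distance -/
def dd {K : Type} [CommRing K] (p : Fin 8 → Fin 2 → K) (i j : Fin 8) : K :=
  ∑ k, (p i k - p j k) ^ 2

/-- hexagon vertices -/
def vx (k : ℕ) : Fin 8 := ⟨k % 6, by omega⟩

/-- the pivot of a hexagon vertex -/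
def pv (k : ℕ) : Fin 8 := if k % 2 = 0 then 7 else 6

/-- parameters of a realisation -/
def parOf {K : Type} [CommRing K] (p : Fin 8 → Fin 2 → K) : Par K :=
  ⟨dd p 6 7, fun k => dd p (vx k) (pv k), fun k => dd p (vx k) (vx (k + 1))⟩

/-- generic realisation -/
def Gn (p : Fin 8 → Fin 2 → ℝ) : Prop :=
  AlgebraicIndependent ℚ (fun x : Fin 8 × Fin 2 => p x.1 x.2)

/-- GEO: a chain gives an equivalent complex realisation with a non-Euclidean distance -/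
def S_GEO : Prop := ∀ (p : Fin 8 → Fin 2 → ℝ), 0 < dd p 6 7 → (∀ k, 0 < dd p (vx k) (pv k)) →
  ∀ (x : ℝ) (w : ℕ → ℂ), w 0 = (x : ℂ) → (parOf p).L * x ^ 2 ≠ (parOf p).m 0 →
    (∀ k, k ≤ 5 → w k ≠ 0) →
    (∀ k, k < 5 → E0 (parOf p).cx.L ((parOf p).cx.m k) ((parOf p).cx.m (k + 1))
      ((parOf p).cx.e k) (w k) (w (k + 1)) = 0) →
    E0 (parOf p).cx.L ((parOf p).cx.m 5) ((parOf p).cx.m 0) ((parOf p).cx.e 5) (w 5) (w 0) = 0 →
  ∃ q : Fin 8 → Fin 2 → ℂ, (∀ a, dd q (ed a).1 (ed a).2 = ((dd p (ed a).1 (ed a).2 : ℝ) : ℂ)) ∧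
    ∀ q' : Fin 8 → Fin 2 → ℝ, (∀ a, dd q' (ed a).1 (ed a).2 = dd p (ed a).1 (ed a).2) →
      dd q 6 0 ≠ ((dd q' 6 0 : ℝ) : ℂ)

/-- RK: the rigidity matrix has independent rows at a generic realisation -/
def S_RK : Prop := ∀ p : Fin 8 → Fin 2 → ℝ, Gn p → ∀ l : Fin 13 → ℝ,
  (∀ (v : Fin 8) (k : Fin 2), ∑ a, l a *
    ((if (ed a).1 = v then p (ed a).1 k - p (ed a).2 k else 0) -
     (if (ed a).2 = v then p (ed a).1 k - p (ed a).2 k else 0)) = 0) → l = 0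

/-- RIG: infinitesimal rigidity at generic realisations -/
def S_RIG : Prop := ∀ p : Fin 8 → Fin 2 → ℝ, Gn p → ∀ u : Fin 8 → Fin 2 → ℝ,
  (∀ a, ∑ k, (p (ed a).1 k - p (ed a).2 k) * (u (ed a).1 k - u (ed a).2 k) = 0) →
  ∀ i j, ∑ k, (p i k - p j k) * (u i k - u j k) = 0

/-- IND: the squared edge lengths of a generic realisation are algebraically independent -/
def S_IND : Prop := ∀ p : Fin 8 → Fin 2 → ℝ, Gn p →
  AlgebraicIndependent ℚ (fun a : Fin 13 => dd p (ed a).1 (ed a).2)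

/-- GEN: genericity of the parameters -/
def S_GEN : Prop := ∀ p : Fin 8 → Fin 2 → ℝ,
  AlgebraicIndependent ℚ (fun a : Fin 13 => dd p (ed a).1 (ed a).2) → GenP (parOf p)

/-- FIN: finitely many complex distance matrices -/
def S_FINI : Prop := ∀ p : Fin 8 → Fin 2 → ℝ,
  AlgebraicIndependent ℚ (fun a : Fin 13 => dd p (ed a).1 (ed a).2) →
  {D : Fin 8 → Fin 8 → ℂ | ∃ q : Fin 8 → Fin 2 → ℂ,
    (∀ a, dd q (ed a).1 (ed a).2 = ((dd p (ed a).1 (ed a).2 : ℝ) : ℂ)) ∧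
    D = fun i j => dd q i j}.Finite

end W536.LM
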